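import Pool.Agent.Q172.Diff.E6

/-! Sequences that approximate the gaps: comparison of the block sums. -/

set_option autoImplicit false

open Filter Topology Set MeasureTheory

namespace Q172.Pat

open SG (ord NZ)
open H177.Lat (yy ee ee_norm ee_add ee_re ee_conj del)
open Pool.Agent.Y744 (Xf Xf_pos)
open Q172.Diff

/-- products of consecutive terms -/
def pr (p : ℕ → ℂ) (m k : ℕ) : ℂ := ∏ i ∈ Finset.range k, p (m + i)

/-- the block sums -/
def Bp (p : ℕ → ℂ) (L m : ℕ) : ℂ := ∑ k ∈ Finset.Icc 1 L, pr p m k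

lemma pr_norm {p : ℕ → ℂ} (hp : ∀ j, ‖p j‖ = 1) (m k : ℕ) : ‖pr p m k‖ = 1 := by
  unfold pr
  rw [norm_prod]
  exact Finset.prod_eq_one fun i _ => hp _

lemma pr_diff {p q : ℕ → ℂ} (hp : ∀ j, ‖p j‖ = 1) (hq : ∀ j, ‖q j‖ = 1) (m k : ℕ) :
    ‖pr p m k - pr q m k‖ ≤ ∑ i ∈ Finset.range k, ‖p (m + i) - q (m + i)‖ := by
  induction k with
  | zero => simp [pr]
  | succ k ih =>
    have e : pr p m (k + 1) - pr q m (k + 1) = (pr p m k - pr q m k) * p (m + k) +
        pr q m k * (p (m + k) - q (m + k)) := by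
      unfold pr
      rw [Finset.prod_range_succ, Finset.prod_range_succ]
      ring
    rw [e, Finset.sum_range_succ]
    refine (norm_add_le _ _).trans ?_
    rw [norm_mul, norm_mul, hp, pr_norm hq, mul_one, one_mul]
    linarith

lemma Bp_diff {p q : ℕ → ℂ} (hp : ∀ j, ‖p j‖ = 1) (hq : ∀ j, ‖q j‖ = 1) (L m : ℕ) :
    ‖Bp p L m - Bp q L m‖ ≤ L * ∑ i ∈ Finset.range L, ‖p (m + i) - q (m + i)‖ := by
  unfold Bp
  rw [← Finset.sum_sub_distrib]
  refine (norm_sum_le _ _).trans ?_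
  have h : ∀ k ∈ Finset.Icc 1 L, ‖pr p m k - pr q m k‖ ≤
      ∑ i ∈ Finset.range L, ‖p (m + i) - q (m + i)‖ := by
    intro k hk
    refine (pr_diff hp hq m k).trans ?_
    exact Finset.sum_le_sum_of_subset_of_nonneg (Finset.range_mono (Finset.mem_Icc.1 hk).2)
      fun _ _ _ => norm_nonneg _
  refine (Finset.sum_le_sum h).trans (le_of_eq ?_)
  rw [Finset.sum_const, Nat.card_Icc, nsmul_eq_mul]
  norm_num

/-- the mean square of the block errors -/
lemma block_err (u : ℕ → ℝ) (L N : ℕ) :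
    ∑ m ∈ Finset.Icc 1 N, ((L : ℝ) * ∑ i ∈ Finset.range L, u (m + i)) ^ 2 ≤
      (L : ℝ) ^ 4 * ∑ j ∈ Finset.Icc 1 (N + L), u j ^ 2 := by
  have h1 : ∀ m, ((L : ℝ) * ∑ i ∈ Finset.range L, u (m + i)) ^ 2 ≤
      (L : ℝ) ^ 3 * ∑ i ∈ Finset.range L, u (m + i) ^ 2 := by
    intro m
    have := sq_sum_le_card_mul_sum_sq (s := Finset.range L) (f := fun i => u (m + i))
    rw [Finset.card_range] at this
    calc ((L : ℝ) * ∑ i ∈ Finset.range L, u (m + i)) ^ 2 =
        (L : ℝ) ^ 2 * (∑ i ∈ Finset.range L, u (m + i)) ^ 2 := by ring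
      _ ≤ (L : ℝ) ^ 2 * (L * ∑ i ∈ Finset.range L, u (m + i) ^ 2) :=
          mul_le_mul_of_nonneg_left this (by positivity)
      _ = _ := by ring
  refine (Finset.sum_le_sum fun m _ => h1 m).trans ?_
  rw [← Finset.mul_sum, Finset.sum_comm]
  have h2 : ∀ i ∈ Finset.range L, ∑ m ∈ Finset.Icc 1 N, u (m + i) ^ 2 ≤
      ∑ j ∈ Finset.Icc 1 (N + L), u j ^ 2 := by
    intro i hi
    have hi' := Finset.mem_range.1 hi
    rw [← Finset.sum_image (f := fun j => u j ^ 2) (g := fun m => m + i)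
      (s := Finset.Icc 1 N) (fun a _ b _ hab => by simpa using hab)]
    refine Finset.sum_le_sum_of_subset_of_nonneg ?_ fun _ _ _ => sq_nonneg _
    intro j hj
    obtain ⟨m, hm, rfl⟩ := Finset.mem_image.1 hj
    rw [Finset.mem_Icc] at hm ⊢
    omega
  calc (L : ℝ) ^ 3 * ∑ i ∈ Finset.range L, ∑ m ∈ Finset.Icc 1 N, u (m + i) ^ 2 ≤
      (L : ℝ) ^ 3 * ∑ i ∈ Finset.range L, ∑ j ∈ Finset.Icc 1 (N + L), u j ^ 2 :=
        mul_le_mul_of_nonneg_left (Finset.sum_le_sum h2) (by positivity)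
    _ = _ := by
        rw [Finset.sum_const, Finset.card_range, nsmul_eq_mul]
        ring

/-- comparison of the root mean squares -/
lemma rms_cmp {p q : ℕ → ℂ} (hp : ∀ j, ‖p j‖ = 1) (hq : ∀ j, ‖q j‖ = 1) (L N : ℕ) :
    |√(1 / (N : ℝ) * ∑ m ∈ Finset.Icc 1 N, ‖Bp p L m‖ ^ 2) -
      √(1 / (N : ℝ) * ∑ m ∈ Finset.Icc 1 N, ‖Bp q L m‖ ^ 2)| ≤
      (L : ℝ) ^ 2 * √(1 / (N : ℝ) * ∑ j ∈ Finset.Icc 1 (N + L), ‖p j - q j‖ ^ 2) := by
  have hN : (0 : ℝ) ≤ 1 / (N : ℝ) := by positivity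
  have key : ∀ a b : ℕ → ℂ, (∀ m, ‖a m - b m‖ ≤
      (L : ℝ) * ∑ i ∈ Finset.range L, ‖p (m + i) - q (m + i)‖) →
      √(∑ m ∈ Finset.Icc 1 N, ‖a m‖ ^ 2) ≤ √(∑ m ∈ Finset.Icc 1 N, ‖b m‖ ^ 2) +
        (L : ℝ) ^ 2 * √(∑ j ∈ Finset.Icc 1 (N + L), ‖p j - q j‖ ^ 2) := by
    intro a b hab
    have h1 := mink_sum (Finset.Icc 1 N) (fun m => ‖a m‖) (fun m => ‖b m‖)
      (fun m => (L : ℝ) * ∑ i ∈ Finset.range L, ‖p (m + i) - q (m + i)‖) (fun m _ => by
        rw [abs_norm, abs_norm, abs_of_nonneg (by positivity)]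
        have h2 := norm_add_le (b m) (a m - b m)
        rw [add_sub_cancel] at h2
        linarith [hab m])
    refine h1.trans (add_le_add le_rfl ?_)
    have h2 := block_err (fun j => ‖p j - q j‖) L N
    refine (Real.sqrt_le_sqrt h2).trans (le_of_eq ?_)
    rw [Real.sqrt_mul (by positivity)]
    congr 1
    rw [show (L : ℝ) ^ 4 = ((L : ℝ) ^ 2) ^ 2 by ring, Real.sqrt_sq (by positivity)]
  have h1 := key (Bp p L) (Bp q L) (fun m => Bp_diff hp hq L m)
  have h2 := key (Bp q L) (Bp p L) (fun m => by rw [norm_sub_rev]; exact Bp_diff hp hq L m)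
  rw [Real.sqrt_mul hN, Real.sqrt_mul hN, Real.sqrt_mul hN, ← mul_sub, abs_mul,
    abs_of_nonneg (Real.sqrt_nonneg _), mul_left_comm]
  refine mul_le_mul_of_nonneg_left ?_ (Real.sqrt_nonneg _)
  rw [abs_le]
  constructor <;> linarith

/-! ### The gaps -/

/-- `e(θ g_j)` for the gaps `g_j` at the scale of `T` -/
noncomputable def qT (θ T : ℝ) (j : ℕ) : ℂ := ee (θ * (yy T (j + 1) - yy T j))

/-- `e(θ d_j)` for the normalised gaps `d_j` -/
noncomputable def qd (θ : ℝ) (j : ℕ) : ℂ := ee (θ * del j)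

lemma qT_norm (θ T : ℝ) (j : ℕ) : ‖qT θ T j‖ = 1 := ee_norm _

lemma qd_norm (θ : ℝ) (j : ℕ) : ‖qd θ j‖ = 1 := ee_norm _

lemma pr_qT (θ T : ℝ) (m k : ℕ) : pr (qT θ T) m k = ee (θ * (yy T (m + k) - yy T m)) := by
  unfold pr
  induction k with
  | zero =>
    simp only [Finset.range_zero, Finset.prod_empty, add_zero, sub_self, mul_zero]
    unfold ee
    simp
  | succ k ih =>
    rw [Finset.prod_range_succ, ih]
    unfold qT
    rw [← ee_add]
    congr 1
    rw [add_assoc]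
    ring

lemma Bp_qT (θ T : ℝ) (L m : ℕ) : ‖Bp (qT θ T) L m‖ = ‖Wz (zw θ T) L m‖ := by
  have e : Bp (qT θ T) L m = ee (-(θ * yy T m)) * Wz (zw θ T) L m := by
    unfold Bp Wz
    rw [Finset.mul_sum]
    have h : Finset.Ioc m (m + L) = (Finset.Icc 1 L).image (fun k => m + k) := by
      ext j
      simp only [Finset.mem_Ioc, Finset.mem_image, Finset.mem_Icc]
      constructor
      · rintro ⟨h1, h2⟩
        exact ⟨j - m, by omega, by omega⟩
      · rintro ⟨k, hk, rfl⟩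
        omega
    rw [h, Finset.sum_image (fun a _ b _ hab => by simpa using hab)]
    refine Finset.sum_congr rfl fun k _ => ?_
    rw [pr_qT]
    unfold zw
    rw [← ee_add]
    congr 1
    ring
  rw [e, norm_mul, ee_norm, one_mul]

lemma VV_eq (θ T : ℝ) (L : ℕ) : VV θ T L =
    1 / (NZ T : ℝ) * ∑ m ∈ Finset.Icc 1 (NZ T), ‖Bp (qT θ T) L m‖ ^ 2 := by
  unfold VV
  simp only [Bp_qT]

/-! ### The two normalisations -/

/-- comparison function -/
noncomputable def Ps (T x : ℝ) : ℝ := (x * (3 + Real.log T - Real.log x)) / (2 * Real.pi)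

lemma ee_lip (x y : ℝ) : ‖ee x - ee y‖ ≤ 2 * Real.pi * |x - y| := by
  have h1 : ee x - ee y = ee y * (ee (x - y) - 1) := by
    rw [mul_sub, mul_one, ← ee_add]
    congr 2
    ring
  rw [h1, norm_mul, ee_norm, one_mul]
  unfold ee
  have h2 := Real.norm_exp_I_mul_ofReal_sub_one_le (x := 2 * Real.pi * (x - y))
  rw [mul_comm Complex.I] at h2
  refine h2.trans (le_of_eq ?_)
  rw [Real.norm_eq_abs, abs_mul, abs_of_pos (by positivity : (0:ℝ) < 2 * Real.pi)]

/-- the variation of `x log x - x log T` -/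
lemma var_le {T x y : ℝ} (hT : 1 < T) (hx : 0 < x) (hxy : x ≤ y) (hy : y ≤ 3 / 2 * T) :
    |(y * Real.log y - x * Real.log x) / (2 * Real.pi) -
      (y * Real.log T / (2 * Real.pi) - x * Real.log T / (2 * Real.pi))| ≤ Ps T y - Ps T x := by
  have hpi := Real.pi_pos
  have hT0 : 0 < T := by linarith
  have hy0 : 0 < y := hx.trans_le hxy
  -- `y (log y) ≤ …` through the function `g(x) = x (3 + 2 log T - 2 log x)`
  have hg : MonotoneOn (fun x : ℝ => x * (3 + 2 * Real.log T - 2 * Real.log x))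
      (Ioc 0 (3 / 2 * T)) := by
    apply monotoneOn_of_deriv_nonneg (convex_Ioc _ _)
    · intro z hz
      apply ContinuousAt.continuousWithinAt
      have := Real.continuousAt_log hz.1.ne'
      fun_prop
    · intro z hz
      rw [interior_Ioc] at hz
      have := (Real.hasDerivAt_log hz.1.ne').differentiableAt
      exact (differentiableAt_id.mul (((differentiableAt_const _).sub
        (this.const_mul 2)))).differentiableWithinAt
    · intro z hz
      rw [interior_Ioc] at hz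
      have h1 : HasDerivAt (fun x : ℝ => x * (3 + 2 * Real.log T - 2 * Real.log x))
          (1 * (3 + 2 * Real.log T - 2 * Real.log z) + z * (0 - 2 * z⁻¹)) z :=
        (hasDerivAt_id z).mul ((hasDerivAt_const z (3 + 2 * Real.log T)).sub
          ((Real.hasDerivAt_log hz.1.ne').const_mul 2))
      rw [h1.deriv]
      have h2 : z * (0 - 2 * z⁻¹) = -2 := by
        have := hz.1.ne'
        field_simp
        ring
      rw [h2]
      have h3 : Real.log z ≤ Real.log (3 / 2 * T) := Real.log_le_log hz.1 hz.2.le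
      rw [Real.log_mul (by norm_num) hT0.ne'] at h3
      have h4 : Real.log (3 / 2) ≤ 1 / 2 := by
        have := Real.log_le_sub_one_of_pos (show (0:ℝ) < 3 / 2 by norm_num)
        linarith
      linarith
  have h1 := hg ⟨hx, hxy.trans hy⟩ ⟨hy0, hy⟩ hxy
  simp only at h1
  unfold Ps
  have e1 : (y * Real.log y - x * Real.log x) / (2 * Real.pi) -
      (y * Real.log T / (2 * Real.pi) - x * Real.log T / (2 * Real.pi)) =
      (y * Real.log y - x * Real.log x - y * Real.log T + x * Real.log T) / (2 * Real.pi) := by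
    ring
  rw [e1, abs_div, abs_of_pos (by positivity : 0 < 2 * Real.pi), ← sub_div,
    div_le_div_iff_of_pos_right (by positivity), abs_le]
  constructor
  · linarith
  · linarith

/-- the comparison function is `O(T)` -/
lemma Ps_le {T x : ℝ} (hT : 1 < T) (hx : 0 < x) (hx2 : x ≤ 3 / 2 * T) : 0 ≤ Ps T x ∧ Ps T x ≤ T := by
  have hpi := Real.pi_gt_three
  have hT0 : 0 < T := by linarith
  unfold Ps
  constructor
  · have h3 : Real.log x ≤ Real.log (3 / 2 * T) := Real.log_le_log hx hx2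
    rw [Real.log_mul (by norm_num) hT0.ne'] at h3
    have h4 : Real.log (3 / 2) ≤ 1 / 2 := by
      have := Real.log_le_sub_one_of_pos (show (0:ℝ) < 3 / 2 by norm_num)
      linarith
    have h5 : 0 ≤ 3 + Real.log T - Real.log x := by linarith
    positivity
  · rw [div_le_iff₀ (by positivity)]
    have h1 := Real.log_le_sub_one_of_pos (show 0 < T / x by positivity)
    rw [Real.log_div hT0.ne' hx.ne'] at h1
    have h2 : x * (3 + Real.log T - Real.log x) ≤ x * (2 + T / x) :=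
      mul_le_mul_of_nonneg_left (by linarith) hx.le
    have h3 : x * (2 + T / x) = 2 * x + T := by field_simp
    have h4 : T * 6 ≤ T * (2 * Real.pi) := mul_le_mul_of_nonneg_left (by linarith) hT0.le
    linarith

lemma ord_small (L : ℕ) : ∀ᶠ T : ℝ in atTop, ord (NZ T + L + 1) ≤ 3 / 2 * T := by
  have h1 := Pool.Agent.Q276.NV.NZ_lim
  have h2 : Tendsto (fun T : ℝ => 3 / 2 * T) atTop atTop :=
    tendsto_id.const_mul_atTop (by norm_num)
  have e1 := (tendsto_order.1 h1).2 (11 / 10) (by norm_num)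
  have e2 := (tendsto_order.1 (h1.comp h2)).1 (9 / 10) (by norm_num)
  filter_upwards [e1, e2, Xf_tendsto.eventually_ge_atTop (4 * ((L : ℝ) + 1)),
    eventually_gt_atTop 1] with T a1 a2 a3 hT
  have hX := Xf_pos hT
  have hX2 := Xf_pos (V := 3 / 2 * T) (by linarith)
  rw [div_lt_iff₀ hX] at a1
  simp only [Function.comp] at a2
  rw [lt_div_iff₀ hX2] at a2
  have hl := Real.log_pos hT
  have h3 : 3 / 2 * Xf T ≤ Xf (3 / 2 * T) := by
    unfold Xf
    rw [mul_div_assoc', div_le_div_iff_of_pos_right (by positivity), ← mul_assoc]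
    exact mul_le_mul_of_nonneg_left (Real.log_le_log (by linarith) (by linarith)) (by linarith)
  rw [SG.ord_le_iff (by omega)]
  have h4 : ((NZ T + L + 1 : ℕ) : ℝ) ≤ (NZ (3 / 2 * T) : ℝ) := by
    push_cast
    linarith
  exact_mod_cast h4

/-- the two normalisations of the gaps -/
lemma norm_sum_small (L : ℕ) : ∀ᶠ T : ℝ in atTop, ∀ θ : ℝ,
    ∑ j ∈ Finset.Icc 1 (NZ T + L), ‖qT θ T j - qd θ j‖ ^ 2 ≤ 4 * Real.pi * |θ| * T := by
  filter_upwards [ord_small L, eventually_gt_atTop 1] with T h1 hT θ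
  have hpi := Real.pi_pos
  have hterm : ∀ j ∈ Finset.Icc 1 (NZ T + L), ‖qT θ T j - qd θ j‖ ^ 2 ≤
      4 * Real.pi * |θ| * (Ps T (ord (j + 1)) - Ps T (ord j)) := by
    intro j hj
    obtain ⟨hj1, hj2⟩ := Finset.mem_Icc.1 hj
    have hx : 0 < ord j := SG.ord_pos hj1
    have hxy : ord j ≤ ord (j + 1) := SG.ord_mono hj1 (by omega)
    have hy : ord (j + 1) ≤ 3 / 2 * T := (SG.ord_mono (by omega) (by omega)).trans h1
    have h2 := var_le hT hx hxy hy
    have h3 : ‖qT θ T j - qd θ j‖ ≤ 2 := by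
      have := norm_sub_le (qT θ T j) (qd θ j)
      rw [qT_norm, qd_norm] at this
      linarith
    have h4 : ‖qT θ T j - qd θ j‖ ≤ 2 * Real.pi * (|θ| * (Ps T (ord (j + 1)) - Ps T (ord j))) := by
      unfold qT qd
      refine (ee_lip _ _).trans ?_
      refine mul_le_mul_of_nonneg_left ?_ (by positivity)
      rw [← mul_sub, abs_mul]
      refine mul_le_mul_of_nonneg_left ?_ (abs_nonneg _)
      rw [abs_sub_comm]
      exact h2
    have h5 := norm_nonneg (qT θ T j - qd θ j)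
    nlinarith
  refine (Finset.sum_le_sum hterm).trans ?_
  rw [← Finset.mul_sum]
  refine mul_le_mul_of_nonneg_left ?_ (by positivity)
  have htel : ∀ M : ℕ, ∑ j ∈ Finset.Icc 1 M, (Ps T (ord (j + 1)) - Ps T (ord j)) =
      Ps T (ord (M + 1)) - Ps T (ord 1) := by
    intro M
    induction M with
    | zero => simp
    | succ M ih =>
      rw [Finset.sum_Icc_succ_top (by omega), ih]
      ring
  rw [htel]
  have a1 := Ps_le hT (SG.ord_pos (n := NZ T + L + 1) (by omega)) h1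
  have a2 := Ps_le hT (SG.ord_pos (n := 1) le_rfl)
    ((SG.ord_mono le_rfl (by omega : 1 ≤ NZ T + L + 1)).trans h1)
  linarith [a1.2, a2.1]

lemma small_ev (L : ℕ) (B : ℝ) : ∀ᶠ T : ℝ in atTop,
    (L : ℝ) ^ 2 * (√(4 * L / NZ T) + √(4 * Real.pi * B * T / NZ T)) ≤ 1 := by
  have h1 := Pool.Agent.Q276.NV.NZ_lim
  have hX := Xf_tendsto
  have hN : Tendsto (fun T : ℝ => (NZ T : ℝ)) atTop atTop := by
    have h2 : Tendsto (fun T : ℝ => (NZ T : ℝ) / Xf T * Xf T) atTop atTop :=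
      h1.pos_mul_atTop one_pos hX
    refine h2.congr' ?_
    filter_upwards [eventually_gt_atTop 1] with T hT
    rw [div_mul_cancel₀ _ (Xf_pos hT).ne']
  have a1 : Tendsto (fun T : ℝ => 4 * (L : ℝ) / NZ T) atTop (𝓝 0) :=
    tendsto_const_nhds.div_atTop hN
  have a2 : Tendsto (fun T : ℝ => 4 * Real.pi * B * T / NZ T) atTop (𝓝 0) := by
    have h3 : Tendsto (fun T : ℝ => 8 * Real.pi ^ 2 * B / Real.log T) atTop (𝓝 0) :=
      tendsto_const_nhds.div_atTop Real.tendsto_log_atTop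
    have h4 : Tendsto (fun T : ℝ => ((NZ T : ℝ) / Xf T)⁻¹) atTop (𝓝 1) := by
      have := h1.inv₀ one_ne_zero
      rwa [inv_one] at this
    have h5 := h3.mul h4
    rw [zero_mul] at h5
    refine h5.congr' ?_
    filter_upwards [eventually_gt_atTop 1, hN.eventually_gt_atTop 0] with T hT hNT
    have hl := Real.log_pos hT
    have hT0 : 0 < T := by linarith
    have hpi := Real.pi_pos
    unfold Xf
    field_simp
    ring
  have a3 := (a1.sqrt.add a2.sqrt).const_mul ((L : ℝ) ^ 2)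
  rw [Real.sqrt_zero, add_zero, mul_zero] at a3
  filter_upwards [(tendsto_order.1 a3).2 1 one_pos] with T hT
  exact hT.le

lemma sqrt_add_le' {x y : ℝ} (hx : 0 ≤ x) (hy : 0 ≤ y) : √(x + y) ≤ √x + √y := by
  rw [Real.sqrt_le_left (by positivity), add_sq, Real.sq_sqrt hx, Real.sq_sqrt hy]
  have := mul_nonneg (Real.sqrt_nonneg x) (Real.sqrt_nonneg y)
  linarith

/-- the distance of a sequence from the gaps -/
noncomputable def dl (θ : ℝ) (p : ℕ → ℂ) (T : ℝ) : ℝ :=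
  √(1 / (NZ T : ℝ) * ∑ j ∈ Finset.Icc 1 (NZ T), ‖p j - qd θ j‖ ^ 2)

/-- the root mean square of the block sums -/
noncomputable def Rp (p : ℕ → ℂ) (L : ℕ) (T : ℝ) : ℝ :=
  √(1 / (NZ T : ℝ) * ∑ m ∈ Finset.Icc 1 (NZ T), ‖Bp p L m‖ ^ 2)

theorem rp_cmp (L : ℕ) (B : ℝ) : ∀ᶠ T : ℝ in atTop, ∀ θ : ℝ, |θ| ≤ B → ∀ p : ℕ → ℂ,
    (∀ j, ‖p j‖ = 1) → |Rp p L T - √(VV θ T L)| ≤ (L : ℝ) ^ 2 * dl θ p T + 1 := by
  filter_upwards [norm_sum_small L, small_ev L B, eventually_gt_atTop 1] with T h1 h2 hT θ hθ p hp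
  have hpi := Real.pi_pos
  have hN : (0 : ℝ) ≤ 1 / (NZ T : ℝ) := by positivity
  rw [VV_eq]
  unfold Rp
  refine (rms_cmp hp (qT_norm θ T) L (NZ T)).trans ?_
  -- split the distance
  have s1 : √(∑ j ∈ Finset.Icc 1 (NZ T + L), ‖p j - qT θ T j‖ ^ 2) ≤
      √(∑ j ∈ Finset.Icc 1 (NZ T + L), ‖p j - qd θ j‖ ^ 2) +
      √(∑ j ∈ Finset.Icc 1 (NZ T + L), ‖qT θ T j - qd θ j‖ ^ 2) :=
    mink_sum _ (fun j => ‖p j - qT θ T j‖) (fun j => ‖p j - qd θ j‖)
      (fun j => ‖qT θ T j - qd θ j‖) (fun j _ => by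
        rw [abs_norm, abs_norm, abs_norm]
        have := norm_add_le (p j - qd θ j) (qd θ j - qT θ T j)
        rw [sub_add_sub_cancel, norm_sub_rev (qd θ j)] at this
        exact this)
  have s2 : √(∑ j ∈ Finset.Icc 1 (NZ T + L), ‖p j - qd θ j‖ ^ 2) ≤
      √(∑ j ∈ Finset.Icc 1 (NZ T), ‖p j - qd θ j‖ ^ 2) + √(4 * L) := by
    have e : ∑ j ∈ Finset.Icc 1 (NZ T + L), ‖p j - qd θ j‖ ^ 2 ≤
        ∑ j ∈ Finset.Icc 1 (NZ T), ‖p j - qd θ j‖ ^ 2 + 4 * L := by
      have e1 : Finset.Icc 1 (NZ T + L) = Finset.Icc 1 (NZ T) ∪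
          Finset.Icc (NZ T + 1) (NZ T + L) := by
        ext j
        simp only [Finset.mem_union, Finset.mem_Icc]
        omega
      have e2 : Disjoint (Finset.Icc 1 (NZ T)) (Finset.Icc (NZ T + 1) (NZ T + L)) := by
        rw [Finset.disjoint_left]
        intro j hj hj2
        rw [Finset.mem_Icc] at hj hj2
        omega
      rw [e1, Finset.sum_union e2]
      refine add_le_add le_rfl ?_
      have e3 : ∀ j ∈ Finset.Icc (NZ T + 1) (NZ T + L), ‖p j - qd θ j‖ ^ 2 ≤ 4 := by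
        intro j _
        have := norm_sub_le (p j) (qd θ j)
        rw [hp, qd_norm] at this
        have := norm_nonneg (p j - qd θ j)
        nlinarith
      refine (Finset.sum_le_sum e3).trans (le_of_eq ?_)
      rw [Finset.sum_const, Nat.card_Icc, nsmul_eq_mul]
      have : NZ T + L + 1 - (NZ T + 1) = L := by omega
      rw [this]
      ring
    refine (Real.sqrt_le_sqrt e).trans ?_
    exact sqrt_add_le' (Finset.sum_nonneg fun _ _ => by positivity) (by positivity)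
  have s3 : √(∑ j ∈ Finset.Icc 1 (NZ T + L), ‖qT θ T j - qd θ j‖ ^ 2) ≤
      √(4 * Real.pi * B * T) := by
    apply Real.sqrt_le_sqrt
    refine (h1 θ).trans ?_
    have : 4 * Real.pi * |θ| ≤ 4 * Real.pi * B := mul_le_mul_of_nonneg_left hθ (by positivity)
    exact mul_le_mul_of_nonneg_right this (by linarith)
  have hBT : 0 ≤ 4 * Real.pi * B * T := by
    have := (abs_nonneg θ).trans hθ
    have : 0 < T := by linarith
    positivity
  have s4 : √(1 / (NZ T : ℝ) * ∑ j ∈ Finset.Icc 1 (NZ T + L), ‖p j - qT θ T j‖ ^ 2) ≤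
      dl θ p T + (√(4 * L / NZ T) + √(4 * Real.pi * B * T / NZ T)) := by
    unfold dl
    rw [Real.sqrt_mul hN, Real.sqrt_mul hN]
    have e1 : √(4 * (L : ℝ) / NZ T) = √(1 / (NZ T : ℝ)) * √(4 * L) := by
      rw [← Real.sqrt_mul hN]; congr 1; ring
    have e2 : √(4 * Real.pi * B * T / NZ T) = √(1 / (NZ T : ℝ)) * √(4 * Real.pi * B * T) := by
      rw [← Real.sqrt_mul hN]; congr 1; ring
    rw [e1, e2, ← mul_add, ← mul_add]
    refine mul_le_mul_of_nonneg_left ?_ (Real.sqrt_nonneg _)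
    linarith
  have s5 := mul_le_mul_of_nonneg_left s4 (by positivity : 0 ≤ (L : ℝ) ^ 2)
  rw [mul_add] at s5
  linarith

/-- **approximation and diffusion** -/
theorem diffusion (RH : RiemannHypothesis) {a b : ℝ} (ha : 0 < a) (hb : b < 1) :
    ∃ C : ℝ, 0 ≤ C ∧ ∀ L : ℕ, 1 ≤ L → ∀ᶠ T : ℝ in atTop, ∀ θ ∈ Icc a b, ∀ p : ℕ → ℂ,
      (∀ j, ‖p j‖ = 1) →
      |Rp p L T - √(θ * L)| ≤ C * (1 + Real.log L) + (L : ℝ) ^ 2 * dl θ p T := by
  obtain ⟨C, hC, h⟩ := idx_rh RH ha hb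
  refine ⟨C + 1, by positivity, fun L hL => ?_⟩
  have hL1 : (1:ℝ) ≤ L := by exact_mod_cast hL
  have hlL : 0 ≤ Real.log L := Real.log_nonneg hL1
  filter_upwards [h L hL, rp_cmp L 1] with T h1 h2 θ hθ p hp
  have h3 := h1 θ hθ
  have h4 := h2 θ (by rw [abs_of_pos (ha.trans_le hθ.1)]; linarith [hθ.2]) p hp
  have h5 := abs_sub_le (Rp p L T) (√(VV θ T L)) (√(θ * L))
  nlinarith

end Q172.Pat
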