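import Pool.Agent.Q172.Pat.A1

/-! Periodic patterns. -/

set_option autoImplicit false

open Filter Topology Set MeasureTheory

namespace Q172.Pat

open SG (ord NZ)
open H177.Lat (yy ee ee_norm ee_add ee_re ee_conj del)
open Pool.Agent.Y744 (Xf Xf_pos)
open Pool.Agent.Q276.NV (logpow_lim)
open Q172.Diff

lemma pr_add (p : ℕ → ℂ) (m j k : ℕ) : pr p m (j + k) = pr p m j * pr p (m + j) k := by
  unfold pr
  rw [Finset.prod_range_add]
  congr 1
  refine Finset.prod_congr rfl fun i _ => ?_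
  rw [add_assoc]

lemma pr_per {p : ℕ → ℂ} (hp : ∀ j, ‖p j‖ = 1) {K : ℕ} (hK : ∀ j, p (j + K) = p j) (m : ℕ) :
    pr p m K = pr p 0 K := by
  induction m with
  | zero => rfl
  | succ m ih =>
    have h0 : p m ≠ 0 := by
      intro h
      have := hp m
      rw [h, norm_zero] at this
      exact zero_ne_one this
    have h1 := pr_add p m 1 K
    have h2 := pr_add p m K 1
    have e1 : pr p m 1 = p m := by simp [pr]
    have e2 : pr p (m + K) 1 = p m := by simp [pr, hK]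
    rw [e1] at h1
    rw [e2, add_comm K 1, h1, mul_comm] at h2
    rw [← ih]
    exact mul_right_cancel₀ h0 h2

lemma per_shift {p : ℕ → ℂ} {K : ℕ} (hK : ∀ j, p (j + K) = p j) (m k : ℕ) :
    pr p (m + K) k = pr p m k := by
  unfold pr
  refine Finset.prod_congr rfl fun i _ => ?_
  rw [show m + K + i = m + i + K by ring, hK]

lemma per_mul {p : ℕ → ℂ} {K : ℕ} (hK : ∀ j, p (j + K) = p j) (r j : ℕ) : p (j + r * K) = p j := by
  induction r with
  | zero => simp
  | succ r ih => rw [show j + (r + 1) * K = j + r * K + K by ring, hK, ih]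

lemma pr_big {p : ℕ → ℂ} (hp : ∀ j, ‖p j‖ = 1) {K : ℕ} (hK : ∀ j, p (j + K) = p j) (m M k : ℕ) :
    pr p m (M * K + k) = pr p 0 K ^ M * pr p m k := by
  induction M with
  | zero => simp
  | succ M ih =>
    rw [show (M + 1) * K + k = K + (M * K + k) by ring, pr_add, pr_per hp hK, per_shift hK, ih,
      pow_succ]
    ring

lemma Bp_big {p : ℕ → ℂ} (hp : ∀ j, ‖p j‖ = 1) {K : ℕ} (hK : ∀ j, p (j + K) = p j) (m M : ℕ) :
    Bp p (M * K) m = (∑ r ∈ Finset.range M, pr p 0 K ^ r) * Bp p K m := by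
  induction M with
  | zero => simp [Bp]
  | succ M ih =>
    have e0 : (∑ r ∈ Finset.range (M + 1), pr p 0 K ^ r) * Bp p K m =
        (∑ r ∈ Finset.range M, pr p 0 K ^ r) * Bp p K m + pr p 0 K ^ M * Bp p K m := by
      rw [Finset.sum_range_succ]
      ring
    rw [e0, ← ih]
    unfold Bp
    have e1 : Finset.Icc 1 ((M + 1) * K) = Finset.Icc 1 (M * K) ∪
        (Finset.Icc 1 K).image (fun k => M * K + k) := by
      ext j
      simp only [Finset.mem_union, Finset.mem_Icc, Finset.mem_image]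
      have : (M + 1) * K = M * K + K := by ring
      rw [this]
      constructor
      · rintro ⟨h1, h2⟩
        rcases Nat.lt_or_ge (M * K) j with h | h
        · exact Or.inr ⟨j - M * K, by omega, by omega⟩
        · exact Or.inl ⟨h1, h⟩
      · rintro (⟨h1, h2⟩ | ⟨k, ⟨h1, h2⟩, rfl⟩)
        · exact ⟨h1, by omega⟩
        · exact ⟨by omega, by omega⟩
    have e2 : Disjoint (Finset.Icc 1 (M * K)) ((Finset.Icc 1 K).image (fun k => M * K + k)) := by
      rw [Finset.disjoint_left]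
      intro j hj hj2
      rw [Finset.mem_Icc] at hj
      obtain ⟨k, hk, rfl⟩ := Finset.mem_image.1 hj2
      rw [Finset.mem_Icc] at hk
      omega
    rw [e1, Finset.sum_union e2, Finset.sum_image (fun a _ b _ hab => by simpa using hab)]
    congr 1
    rw [Finset.mul_sum]
    exact Finset.sum_congr rfl fun k _ => pr_big hp hK m M k

lemma Rp_big {p : ℕ → ℂ} (hp : ∀ j, ‖p j‖ = 1) {K : ℕ} (hK : ∀ j, p (j + K) = p j) (M : ℕ) (T : ℝ) :
    Rp p (M * K) T = ‖∑ r ∈ Finset.range M, pr p 0 K ^ r‖ * Rp p K T := by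
  unfold Rp
  simp only [Bp_big hp hK, norm_mul, mul_pow]
  rw [← Finset.mul_sum, mul_left_comm, Real.sqrt_mul (by positivity), Real.sqrt_sq (norm_nonneg _)]

lemma unit_sq {w : ℂ} (hw : ‖w‖ = 1) : ‖1 + w ^ 2‖ = |‖1 + w‖ ^ 2 - 2| := by
  have h1 : w.re ^ 2 + w.im ^ 2 = 1 := by
    have := Complex.sq_norm w
    rw [hw, Complex.normSq_apply] at this
    linarith
  have h2 : ‖1 + w‖ ^ 2 = 2 + 2 * w.re := by
    rw [Complex.sq_norm, Complex.normSq_apply]
    simp only [Complex.add_re, Complex.one_re, Complex.add_im, Complex.one_im]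
    nlinarith
  have h3 : ‖1 + w ^ 2‖ ^ 2 = (2 * w.re) ^ 2 := by
    rw [Complex.sq_norm, Complex.normSq_apply, sq w]
    simp only [Complex.add_re, Complex.one_re, Complex.add_im, Complex.one_im, Complex.mul_re,
      Complex.mul_im]
    nlinarith
  rw [h2, show 2 + 2 * w.re - 2 = 2 * w.re by ring, ← abs_norm (1 + w ^ 2)]
  exact (sq_eq_sq_iff_abs_eq_abs _ _).1 h3

/-- the three scales -/
lemma three {p : ℕ → ℂ} (hp : ∀ j, ‖p j‖ = 1) {K : ℕ} (hK : ∀ j, p (j + K) = p j) {T s E : ℝ}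
    (hs : 0 < s) (h1 : |Rp p K T - s| ≤ E) (h2 : |Rp p (2 * K) T - √2 * s| ≤ E)
    (h4 : |Rp p (4 * K) T - 2 * s| ≤ E) : s / 100 < E := by
  by_contra hcon
  push Not at hcon
  set w := pr p 0 K with hw
  have hw1 : ‖w‖ = 1 := pr_norm hp 0 K
  have e2 : Rp p (2 * K) T = ‖1 + w‖ * Rp p K T := by
    rw [Rp_big hp hK]
    congr 2
    simp [Finset.sum_range_succ, ← hw]
  have e4 : Rp p (4 * K) T = ‖1 + w‖ * |‖1 + w‖ ^ 2 - 2| * Rp p K T := by
    rw [Rp_big hp hK, ← unit_sq hw1, ← norm_mul]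
    congr 2
    simp only [Finset.sum_range_succ, Finset.sum_range_zero]
    rw [← hw]
    ring
  set f := ‖1 + w‖ with hf
  have hf0 : 0 ≤ f := norm_nonneg _
  set R := Rp p K T with hR
  have hq2 : √(2:ℝ) ≤ 1.4143 := by
    rw [Real.sqrt_le_left (by norm_num)]; norm_num
  have hq2' : 1.4142 ≤ √(2:ℝ) := Real.le_sqrt_of_sq_le (by norm_num)
  obtain ⟨a1, a2⟩ := abs_le.1 (h1.trans hcon)
  obtain ⟨b1, b2⟩ := abs_le.1 (h2.trans hcon)
  obtain ⟨c1, c2⟩ := abs_le.1 (h4.trans hcon)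
  rw [e2] at b1 b2
  rw [e4] at c1
  have m1 : √2 * s ≤ 1.4143 * s := mul_le_mul_of_nonneg_right hq2 hs.le
  have m2 : 1.4142 * s ≤ √2 * s := mul_le_mul_of_nonneg_right hq2' hs.le
  have hRl : 0.99 * s ≤ R := by linarith
  have hRu : R ≤ 1.01 * s := by linarith
  have hfu : f ≤ 1.44 := by
    by_contra hc
    push Not at hc
    have : 1.44 * (0.99 * s) ≤ f * R := mul_le_mul hc.le hRl (by positivity) hf0
    linarith
  have hfl : 1.39 ≤ f := by
    by_contra hc
    push Not at hc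
    have : f * R ≤ 1.39 * (1.01 * s) := mul_le_mul hc.le hRu (by linarith) (by norm_num)
    linarith
  have h5 : |f ^ 2 - 2| ≤ 0.08 := by
    rw [abs_le]
    constructor <;> nlinarith
  have h6 : f * |f ^ 2 - 2| * R ≤ 1.44 * 0.08 * (1.01 * s) := by
    refine mul_le_mul (mul_le_mul hfu h5 (abs_nonneg _) (by norm_num)) hRu (by linarith) (by norm_num)
  linarith

lemma log_small (C a : ℝ) (ha : 0 < a) : ∃ K0 : ℕ, 1 ≤ K0 ∧ ∀ K : ℕ, K0 ≤ K →
    C * (1 + Real.log (4 * K)) ≤ √(a * K) / 200 := by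
  have h1 := Q172.Diff.uu_lim
  have h2 : Tendsto (fun L : ℝ => √((1 + Real.log L) ^ 2 / L)) atTop (𝓝 0) := by
    have := h1.sqrt
    rwa [Real.sqrt_zero] at this
  have h3 : Tendsto (fun K : ℕ => 4 * (K : ℝ)) atTop atTop :=
    tendsto_natCast_atTop_atTop.const_mul_atTop (by norm_num)
  have h4 := ((h2.comp h3).const_mul |C|)
  rw [mul_zero] at h4
  obtain ⟨K0, hK0⟩ := ((tendsto_order.1 h4).2 (√a / 400) (by positivity)).exists_forall_of_atTop
  refine ⟨max K0 1, le_max_right _ _, fun K hK => ?_⟩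
  have hK1 : 1 ≤ K := (le_max_right _ _).trans hK
  have hKr : (1:ℝ) ≤ K := by exact_mod_cast hK1
  have h5 := hK0 K ((le_max_left _ _).trans hK)
  simp only [Function.comp] at h5
  have hu : 0 ≤ 1 + Real.log (4 * K) := by
    have := Real.log_nonneg (show (1:ℝ) ≤ 4 * K by linarith)
    linarith
  have h4K : 0 < √(4 * (K:ℝ)) := Real.sqrt_pos.2 (by linarith)
  rw [Real.sqrt_div (by positivity), Real.sqrt_sq hu, mul_div_assoc', div_lt_iff₀ h4K] at h5
  have e : √(4 * (K:ℝ)) = 2 * √(K:ℝ) := by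
    rw [Real.sqrt_mul (by norm_num), show (4:ℝ) = 2 ^ 2 by norm_num, Real.sqrt_sq (by norm_num)]
  rw [e] at h5
  have h6 : C * (1 + Real.log (4 * K)) ≤ |C| * (1 + Real.log (4 * K)) :=
    mul_le_mul_of_nonneg_right (le_abs_self C) hu
  rw [Real.sqrt_mul ha.le]
  linarith

/-- **no periodic pattern, quantitatively** -/
theorem periodic (RH : RiemannHypothesis) {a b : ℝ} (ha : 0 < a) (hb : b < 1) :
    ∃ c : ℝ, 0 < c ∧ ∀ K : ℕ, 1 ≤ K → ∀ᶠ T : ℝ in atTop, ∀ θ ∈ Icc a b, ∀ p : ℕ → ℂ,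
      (∀ j, ‖p j‖ = 1) → (∀ j, p (j + K) = p j) → c / (K : ℝ) ^ 3 ≤ dl θ p T ^ 2 := by
  obtain ⟨C, hC, h⟩ := diffusion RH ha hb
  obtain ⟨K0, hK0, hlog⟩ := log_small C a ha
  have hK0r : (1:ℝ) ≤ K0 := by exact_mod_cast hK0
  refine ⟨a / (3200 ^ 2 * (K0 : ℝ) ^ 3), by positivity, fun K hK => ?_⟩
  have hKr : (1:ℝ) ≤ K := by exact_mod_cast hK
  set M := K0 * K with hM
  have hM1 : 1 ≤ M := Nat.mul_pos hK0 hK
  have hMr : (1:ℝ) ≤ M := by exact_mod_cast hM1
  have hMK : K0 ≤ M := Nat.le_mul_of_pos_right _ hK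
  filter_upwards [h M hM1, h (2 * M) (by omega), h (4 * M) (by omega)] with T h1 h2 h4 θ hθ p hp hper
  have hθ0 : 0 < θ := ha.trans_le hθ.1
  have hperM : ∀ j, p (j + M) = p j := fun j => per_mul hper K0 j
  have d0 : 0 ≤ dl θ p T := Real.sqrt_nonneg _
  have g1 := h1 θ hθ p hp
  have g2 := h2 θ hθ p hp
  have g4 := h4 θ hθ p hp
  set s := √(θ * M) with hs
  have hs0 : 0 < s := Real.sqrt_pos.2 (by positivity)
  have hlog1 : Real.log M ≤ Real.log (4 * M) := Real.log_le_log (by linarith) (by linarith)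
  have hlog2 : Real.log (2 * M) ≤ Real.log (4 * M) := Real.log_le_log (by linarith) (by linarith)
  have e2 : √(θ * (2 * M : ℕ)) = √2 * s := by
    rw [hs, ← Real.sqrt_mul (by norm_num)]
    congr 1
    push_cast
    ring
  have e4 : √(θ * (4 * M : ℕ)) = 2 * s := by
    have : θ * ((4 * M : ℕ) : ℝ) = 2 ^ 2 * (θ * M) := by push_cast; ring
    rw [this, Real.sqrt_mul (by norm_num), Real.sqrt_sq (by norm_num)]
  rw [e2] at g2
  rw [e4] at g4
  set E := C * (1 + Real.log (4 * M)) + 16 * (M : ℝ) ^ 2 * dl θ p T with hE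
  have k1 : |Rp p M T - s| ≤ E := by
    refine g1.trans ?_
    have a1 := mul_le_mul_of_nonneg_left hlog1 hC
    have a2 : 0 ≤ (M : ℝ) ^ 2 * dl θ p T := by positivity
    rw [hE]
    linarith
  have k2 : |Rp p (2 * M) T - √2 * s| ≤ E := by
    refine g2.trans ?_
    push_cast
    have a1 := mul_le_mul_of_nonneg_left hlog2 hC
    have a2 : 0 ≤ (M : ℝ) ^ 2 * dl θ p T := by positivity
    rw [hE]
    linarith
  have k4 : |Rp p (4 * M) T - 2 * s| ≤ E := by
    refine g4.trans ?_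
    push_cast
    rw [hE]
    linarith
  have h5 := three hp hperM hs0 k1 k2 k4
  have h6 := hlog M hMK
  have h7 : √(a * M) ≤ s := Real.sqrt_le_sqrt (mul_le_mul_of_nonneg_right hθ.1 (by linarith))
  have h8 : √(a * M) / 200 ≤ 16 * (M : ℝ) ^ 2 * dl θ p T := by
    have : s / 100 < √(a * M) / 200 + 16 * (M : ℝ) ^ 2 * dl θ p T := by
      rw [hE] at h5
      linarith
    linarith
  have h9 := pow_le_pow_left₀ (by positivity) h8 2
  rw [div_pow, Real.sq_sqrt (by positivity)] at h9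
  have h10 : a / (3200 ^ 2 * (M : ℝ) ^ 3) ≤ dl θ p T ^ 2 := by
    rw [div_le_iff₀ (by positivity)]
    have e : (16 * (M : ℝ) ^ 2 * dl θ p T) ^ 2 = 256 * (M : ℝ) * ((M : ℝ) ^ 3 * dl θ p T ^ 2) := by
      ring
    rw [e, div_le_iff₀ (by norm_num)] at h9
    have h11 : (M : ℝ) * a ≤ M * (dl θ p T ^ 2 * (3200 ^ 2 * (M : ℝ) ^ 3)) := by nlinarith
    exact le_of_mul_le_mul_left h11 (by linarith)
  refine le_trans (le_of_eq ?_) h10
  rw [hM]
  push_cast
  rw [div_div]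
  congr 1
  ring

end Q172.Pat
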