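import Pool.Agent.Q172.Pat.A2

/-! Real and half-integral sequences. -/

set_option autoImplicit false

open Filter Topology Set MeasureTheory

namespace Q172.Pat

open SG (ord NZ)
open H177.Lat (yy ee ee_norm ee_add ee_re ee_conj del)
open Q172.Diff

/-- the root mean square distance of the sequence `x` to the gaps -/
noncomputable def er (x : ℕ → ℝ) (T : ℝ) : ℝ :=
  √(1 / (NZ T : ℝ) * ∑ j ∈ Finset.Icc 1 (NZ T), (del j - x j) ^ 2)

/-- the block sums of a real sequence -/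
noncomputable def Sx (θ : ℝ) (x : ℕ → ℝ) (L m : ℕ) : ℂ :=
  ∑ k ∈ Finset.Icc 1 L, ee (θ * ∑ i ∈ Finset.range k, x (m + i))

lemma dl_le {θ : ℝ} (hθ : |θ| ≤ 1) (x : ℕ → ℝ) (T : ℝ) :
    dl θ (fun j => ee (θ * x j)) T ≤ 2 * Real.pi * er x T := by
  unfold dl er
  have hpi : 0 ≤ 2 * Real.pi := by positivity
  rw [show 2 * Real.pi * √(1 / (NZ T : ℝ) * ∑ j ∈ Finset.Icc 1 (NZ T), (del j - x j) ^ 2) =
    √((2 * Real.pi) ^ 2 * (1 / (NZ T : ℝ) * ∑ j ∈ Finset.Icc 1 (NZ T), (del j - x j) ^ 2)) by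
      rw [Real.sqrt_mul (sq_nonneg (2 * Real.pi)), Real.sqrt_sq hpi]]
  refine Real.sqrt_le_sqrt ?_
  rw [← mul_assoc, mul_comm ((2 * Real.pi) ^ 2), mul_assoc]
  refine mul_le_mul_of_nonneg_left ?_ (by positivity)
  rw [Finset.mul_sum]
  refine Finset.sum_le_sum fun j _ => ?_
  unfold qd
  have h1 := ee_lip (θ * x j) (θ * del j)
  have h2 : |θ * x j - θ * del j| ≤ |del j - x j| := by
    rw [← mul_sub, abs_mul, abs_sub_comm (x j)]
    exact mul_le_of_le_one_left (abs_nonneg _) hθ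
  have h3 : ‖ee (θ * x j) - ee (θ * del j)‖ ≤ 2 * Real.pi * |del j - x j| :=
    h1.trans (mul_le_mul_of_nonneg_left h2 hpi)
  calc ‖ee (θ * x j) - ee (θ * del j)‖ ^ 2 ≤ (2 * Real.pi * |del j - x j|) ^ 2 :=
        pow_le_pow_left₀ (norm_nonneg _) h3 2
    _ = _ := by rw [mul_pow, sq_abs]

lemma pr_ee (θ : ℝ) (x : ℕ → ℝ) (m k : ℕ) :
    pr (fun j => ee (θ * x j)) m k = ee (θ * ∑ i ∈ Finset.range k, x (m + i)) := by
  unfold pr
  induction k with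
  | zero =>
    simp only [Finset.range_zero, Finset.prod_empty, Finset.sum_empty, mul_zero]
    unfold ee
    simp
  | succ k ih =>
    rw [Finset.prod_range_succ, ih, Finset.sum_range_succ, ← ee_add, mul_add]

lemma Bp_ee (θ : ℝ) (x : ℕ → ℝ) (L m : ℕ) : Bp (fun j => ee (θ * x j)) L m = Sx θ x L m := by
  unfold Bp Sx
  exact Finset.sum_congr rfl fun k _ => pr_ee θ x m k

theorem real_seq (RH : RiemannHypothesis) {a b : ℝ} (ha : 0 < a) (hb : b < 1) :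
    ∃ C : ℝ, 0 ≤ C ∧ ∀ L : ℕ, 1 ≤ L → ∀ᶠ T : ℝ in atTop, ∀ θ ∈ Icc a b, ∀ x : ℕ → ℝ,
      |√(1 / (NZ T : ℝ) * ∑ m ∈ Finset.Icc 1 (NZ T), ‖Sx θ x L m‖ ^ 2) - √(θ * L)| ≤
        C * (1 + Real.log L) + 2 * Real.pi * (L : ℝ) ^ 2 * er x T := by
  obtain ⟨C, hC, h⟩ := diffusion RH ha hb
  refine ⟨C, hC, fun L hL => ?_⟩
  filter_upwards [h L hL] with T h1 θ hθ x
  have h2 := h1 θ hθ (fun j => ee (θ * x j)) (fun j => ee_norm _)
  unfold Rp at h2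
  simp only [Bp_ee] at h2
  refine h2.trans ?_
  have h3 := dl_le (show |θ| ≤ 1 by rw [abs_of_pos (ha.trans_le hθ.1)]; linarith [hθ.2]) x T
  have h4 := mul_le_mul_of_nonneg_left h3 (sq_nonneg (L:ℝ))
  linarith

lemma ee_int (n : ℤ) : ee (n : ℝ) = 1 := by
  unfold ee
  rw [Complex.exp_eq_one_iff]
  exact ⟨n, by push_cast; ring⟩

lemma ee_flip (θ : ℝ) (n : ℤ) : ee (θ * (n / 2 : ℝ)) = (starRingEnd ℂ) (ee ((2 - θ) * (n / 2 : ℝ))) := by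
  rw [ee_conj]
  have e : θ * (n / 2 : ℝ) = (n : ℝ) + -((2 - θ) * (n / 2 : ℝ)) := by ring
  rw [e, ee_add, ee_int, one_mul]

lemma Sx_flip (θ : ℝ) (k : ℕ → ℤ) (L m : ℕ) :
    ‖Sx θ (fun j => (k j : ℝ) / 2) L m‖ = ‖Sx (2 - θ) (fun j => (k j : ℝ) / 2) L m‖ := by
  have e : Sx θ (fun j => (k j : ℝ) / 2) L m =
      (starRingEnd ℂ) (Sx (2 - θ) (fun j => (k j : ℝ) / 2) L m) := by
    unfold Sx
    rw [map_sum]
    refine Finset.sum_congr rfl fun l _ => ?_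
    have e2 : ∑ i ∈ Finset.range l, (k (m + i) : ℝ) / 2 =
        ((∑ i ∈ Finset.range l, k (m + i) : ℤ) : ℝ) / 2 := by
      push_cast
      rw [Finset.sum_div]
    simp only [e2]
    exact ee_flip _ _
  rw [e, RCLike.norm_conj]

theorem half_seq (RH : RiemannHypothesis) {a b : ℝ} (ha : 0 < a) (hb : b < 1) :
    ∃ C : ℝ, 0 ≤ C ∧ ∀ L : ℕ, 1 ≤ L → ∀ᶠ T : ℝ in atTop, ∀ θ ∈ Icc a b ∪ Icc (2 - b) (2 - a),
      ∀ k : ℕ → ℤ,
      |√(1 / (NZ T : ℝ) * ∑ m ∈ Finset.Icc 1 (NZ T), ‖Sx θ (fun j => (k j : ℝ) / 2) L m‖ ^ 2) -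
        √(min θ (2 - θ) * L)| ≤
        C * (1 + Real.log L) + 2 * Real.pi * (L : ℝ) ^ 2 * er (fun j => (k j : ℝ) / 2) T := by
  obtain ⟨C, hC, h⟩ := real_seq RH ha hb
  refine ⟨C, hC, fun L hL => ?_⟩
  filter_upwards [h L hL] with T h1 θ hθ k
  rcases hθ with hθ | hθ
  · rw [min_eq_left (by linarith [hθ.2])]
    exact h1 θ hθ _
  · rw [min_eq_right (by linarith [hθ.1])]
    simp only [Sx_flip θ]
    exact h1 (2 - θ) ⟨by linarith [hθ.2], by linarith [hθ.1]⟩ _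

end Q172.Pat
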